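import Pool.Agent.H97.PK.ITP

/-!
LCI: intersections of balls are log-concave in the squared radii.
-/

open MeasureTheory Set Metric Real
open scoped ENNReal

namespace Pool.Agent.H66.PK

open Pool.Agent.H97.PK

theorem open_int {d : ℕ} {ι : Type} [Fintype ι] (q : ι → E d) (a : ι → ℝ) (s : ℝ) :
    IsOpen {y : E d | ∀ i, ‖y - q i‖ ^ 2 - a i < s} := by
  have : {y : E d | ∀ i, ‖y - q i‖ ^ 2 - a i < s} = ⋂ i, {y | ‖y - q i‖ ^ 2 - a i < s} := by
    ext y; simp
  rw [this]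
  exact isOpen_iInter_of_finite fun i => isOpen_lt (by fun_prop) continuous_const

theorem null_sph {d : ℕ} (hd : 1 ≤ d) (c : E d) (r : ℝ) :
    volume {y : E d | ‖y - c‖ ^ 2 = r} = 0 := by
  have : Nonempty (Fin d) := ⟨⟨0, hd⟩⟩
  have hnt : Nontrivial (E d) := inferInstance
  refine measure_mono_null (t := sphere c (√r)) (fun y hy => ?_) ?_
  · have hy' : ‖y - c‖ ^ 2 = r := hy
    rw [mem_sphere, dist_eq_norm, ← hy', Real.sqrt_sq (norm_nonneg _)]
  · exact Measure.addHaar_sphere volume c (√r)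

theorem vol_open {d : ℕ} (hd : 1 ≤ d) {ι : Type} [Fintype ι] (q : ι → E d) (a : ι → ℝ) (s : ℝ) :
    volume {y : E d | ∀ i, ‖y - q i‖ ^ 2 - a i < s} =
      volume {y : E d | ∀ i, ‖y - q i‖ ^ 2 - a i ≤ s} := by
  refine measure_eq_measure_of_null_diff (fun y hy i => (hy i).le) ?_
  have h1 : volume (⋃ i, {y : E d | ‖y - q i‖ ^ 2 = a i + s}) = 0 :=
    measure_iUnion_null fun i => null_sph hd _ _
  refine measure_mono_null (fun y hy => ?_) h1
  obtain ⟨hy1, hy2⟩ := hy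
  have hy3 : ¬ ∀ i, ‖y - q i‖ ^ 2 - a i < s := hy2
  push Not at hy3
  obtain ⟨i, hi⟩ := hy3
  refine mem_iUnion.2 ⟨i, ?_⟩
  have h2 : ‖y - q i‖ ^ 2 - a i ≤ s := hy1 i
  show ‖y - q i‖ ^ 2 = a i + s
  linarith

/-- LCI: intersections of balls are log-concave in the squared radii. -/
theorem pf_lci : T_LCI := by
  intro d hd ι _ _ q a s t θ h0 h1
  rcases h0.eq_or_lt with rfl | h0
  · simp
  rcases h1.eq_or_lt with rfl | h1
  · simp
  rw [← vol_open hd q a s, ← vol_open hd q a t, ← vol_open hd q a]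
  refine bm d θ h0 h1 _ _ _ (open_int q a s) (open_int q a t) (open_int q a _) ?_
  intro u hu v hv i
  have h3 : ‖u - q i‖ ^ 2 - a i < s := hu i
  have h4 : ‖v - q i‖ ^ 2 - a i < t := hv i
  have ht : 0 < 1 - θ := by linarith
  have h5 : 0 ≤ θ * (1 - θ) * ‖u - v‖ ^ 2 := by positivity
  rw [sq_comb]
  nlinarith [mul_lt_mul_of_pos_left h3 ht, mul_lt_mul_of_pos_left h4 h0]

end Pool.Agent.H66.PK
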