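import Pool.Agent.H97.PK.Targets
import Pool.Agent.H65k.Final

/-!
WTS: from unions to all nonnegative weights.
-/

open MeasureTheory Set Metric Real
open scoped ENNReal

namespace Pool.Agent.H66.PK

open Pool.Agent.H97.PK Pool.Agent.H65k

/-- Abel summation -/
theorem abel_le (n : ℕ) (τ a b : ℕ → ℝ) (hτ : ∀ k, k + 1 < n → τ (k + 1) ≤ τ k)
    (hτ0 : ∀ k, k < n → 0 ≤ τ k)
    (hle : ∀ m, m ≤ n → ∑ k ∈ Finset.range m, a k ≤ ∑ k ∈ Finset.range m, b k) :
    ∑ k ∈ Finset.range n, τ k * a k ≤ ∑ k ∈ Finset.range n, τ k * b k := by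
  rcases Nat.eq_zero_or_pos n with rfl | hn
  · simp
  have key : ∀ m, m + 1 ≤ n → τ m * (∑ k ∈ Finset.range (m + 1), (b k - a k))
      ≤ ∑ k ∈ Finset.range (m + 1), τ k * (b k - a k) := by
    intro m
    induction m with
    | zero => intro _; simp
    | succ m ih =>
      intro hm
      have h1 := ih (by omega)
      rw [Finset.sum_range_succ, Finset.sum_range_succ (fun k => τ k * (b k - a k))]
      have h2 : 0 ≤ ∑ k ∈ Finset.range (m + 1), (b k - a k) := by
        rw [Finset.sum_sub_distrib]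
        linarith [hle (m + 1) (by omega)]
      have h3 := hτ m (by omega)
      nlinarith
  have h1 := key (n - 1) (by omega)
  have h2 : n - 1 + 1 = n := by omega
  rw [h2, Finset.sum_sub_distrib] at h1
  have h3 : ∑ k ∈ Finset.range n, τ k * (b k - a k)
      = ∑ k ∈ Finset.range n, τ k * b k - ∑ k ∈ Finset.range n, τ k * a k := by
    rw [← Finset.sum_sub_distrib]
    exact Finset.sum_congr rfl fun k _ => by ring
  have h4 : 0 ≤ τ (n - 1) * (∑ k ∈ Finset.range n, b k - ∑ k ∈ Finset.range n, a k) :=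
    mul_nonneg (hτ0 _ (by omega)) (by linarith [hle n le_rfl])
  linarith

variable {d n : ℕ}

/-- indices of the balls which contain `x` -/
noncomputable def Nb (ρ : Fin n → ℝ) (p : Fin n → E d) (x : E d) : Finset (Fin n) :=
  Finset.univ.filter (fun i => dist x (p i) ≤ ρ i)

theorem mult_eq (ρ : Fin n → ℝ) (p : Fin n → E d) (x : E d) : mult ρ p x = (Nb ρ p x).card := by
  unfold mult Nb
  congr 1

/-- the union over a subfamily -/
theorem union_eq (ρ : Fin n → ℝ) (p : Fin n → E d) (R : Finset (Fin n)) :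
    {x | (R ∩ Nb ρ p x).Nonempty} = ⋃ i : R, closedBall (p i) (ρ i) := by
  ext x
  simp only [mem_setOf_eq, mem_iUnion, mem_closedBall, Finset.Nonempty, Finset.mem_inter, Nb,
    Finset.mem_filter, Finset.mem_univ, true_and]
  constructor
  · rintro ⟨i, hi, hx⟩
    exact ⟨⟨i, hi⟩, hx⟩
  · rintro ⟨⟨i, hi⟩, hx⟩
    exact ⟨i, hi, hx⟩

theorem union_meas (ρ : Fin n → ℝ) (p : Fin n → E d) (R : Finset (Fin n)) :
    MeasurableSet {x | (R ∩ Nb ρ p x).Nonempty} := by
  rw [union_eq]
  exact MeasurableSet.iUnion fun i => isClosed_closedBall.measurableSet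

theorem union_fin (ρ : Fin n → ℝ) (p : Fin n → E d) (R : Finset (Fin n)) :
    volume {x | (R ∩ Nb ρ p x).Nonempty} < ∞ := by
  rw [union_eq]
  refine (measure_iUnion_fintype_le _ _).trans_lt ?_
  exact ENNReal.sum_lt_top.2 fun i _ => measure_closedBall_lt_top

/-- weight of a subset -/
noncomputable def wt (n m : ℕ) (R : Finset (Fin n)) : ℝ :=
  (1 / (m : ℝ)) ^ R.card * (1 - 1 / (m : ℝ)) ^ (n - R.card)

theorem wt_nonneg {m : ℕ} (hm : 1 ≤ m) (R : Finset (Fin n)) : 0 ≤ wt n m R := by
  have h1 : (1 : ℝ) ≤ m := by exact_mod_cast hm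
  have h2 : 1 / (m : ℝ) ≤ 1 := by
    rw [div_le_one (by linarith)]; exact h1
  unfold wt
  have h3 : 0 ≤ 1 - 1 / (m : ℝ) := by linarith
  positivity

/-- integral of the random union -/
theorem int_rand (ρ : Fin n → ℝ) (p : Fin n → E d) (m : ℕ) :
    Integrable (fun x : E d => (m : ℝ) * ∑ R : Finset (Fin n), wt n m R *
      (if (R ∩ Nb ρ p x).Nonempty then 1 else 0)) ∧
    ∫ x : E d, (m : ℝ) * ∑ R : Finset (Fin n), wt n m R *
      (if (R ∩ Nb ρ p x).Nonempty then 1 else 0) =
    (m : ℝ) * ∑ R : Finset (Fin n), wt n m R *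
      (volume {x : E d | (R ∩ Nb ρ p x).Nonempty}).toReal := by
  have h1 : ∀ R : Finset (Fin n), (fun x : E d => wt n m R *
      (if (R ∩ Nb ρ p x).Nonempty then (1 : ℝ) else 0)) =
      fun x => wt n m R * ({x : E d | (R ∩ Nb ρ p x).Nonempty}.indicator (fun _ => (1 : ℝ)) x) := by
    intro R
    funext x
    congr 1
    simp [indicator]
  have h2 : ∀ R : Finset (Fin n), Integrable (fun x : E d => wt n m R *
      (if (R ∩ Nb ρ p x).Nonempty then (1 : ℝ) else 0)) := by
    intro R
    rw [h1 R]
    refine Integrable.const_mul ?_ _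
    rw [integrable_indicator_iff (union_meas ρ p R)]
    exact integrableOn_const (union_fin ρ p R).ne
  refine ⟨(integrable_finsetSum _ fun R _ => h2 R).const_mul _, ?_⟩
  rw [integral_const_mul, integral_finsetSum _ fun R _ => h2 R]
  congr 1
  refine Finset.sum_congr rfl fun R _ => ?_
  rw [h1 R, integral_const_mul, integral_indicator (union_meas ρ p R)]
  simp [Measure.real]

/-- integral of the truncated multiplicity -/
theorem int_min (ρ : Fin n → ℝ) (p : Fin n → E d) (m : ℕ) :
    Integrable (fun x : E d => min (((Nb ρ p x).card : ℕ) : ℝ) m) ∧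
    ∫ x : E d, min (((Nb ρ p x).card : ℕ) : ℝ) m =
      ∑ k ∈ Finset.range m, (volume (lev ρ p k)).toReal := by
  have h1 : ∀ x : E d, min (((Nb ρ p x).card : ℕ) : ℝ) m =
      ∑ k ∈ Finset.range m, (lev ρ p k).indicator (fun _ => (1 : ℝ)) x := by
    intro x
    have h := pointwise_min m (mult ρ p x)
    rw [← mult_eq]
    have h2 : ∑ k ∈ Finset.range m, (lev ρ p k).indicator (fun _ => (1 : ℝ)) x =
        ∑ k ∈ Finset.range m, if k + 1 ≤ mult ρ p x then (1 : ℝ) else 0 := by
      refine Finset.sum_congr rfl fun k _ => ?_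
      simp [indicator, lev]
    rw [h2]
    rw [max_eq_left (Nat.cast_nonneg m)] at h
    rcases le_total (mult ρ p x : ℝ) m with h3 | h3
    · rw [min_eq_left h3]
      rw [max_eq_left (by linarith)] at h
      linarith
    · rw [min_eq_right h3]
      rw [max_eq_right (by linarith)] at h
      linarith
  have h2 : ∀ k ∈ Finset.range m, Integrable (fun x : E d =>
      (lev ρ p k).indicator (fun _ => (1 : ℝ)) x) := by
    intro k _
    rw [integrable_indicator_iff (measurableSet_lev ρ p k)]
    exact integrableOn_const (lev_finite ρ p k).ne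
  simp only [h1]
  refine ⟨integrable_finsetSum _ h2, ?_⟩
  rw [integral_finsetSum _ h2]
  refine Finset.sum_congr rfl fun k _ => ?_
  rw [integral_indicator (measurableSet_lev ρ p k)]
  simp [Measure.real]

/-- WTS: from unions to weighted sums. -/
theorem pf_wts (hBIN : T_BIN) : T_WTS := by
  intro d hd C hC hun n p q ρ hpq hρ τ hτ hτ0
  -- partial sums
  have hS : ∀ m : ℕ, ∑ k ∈ Finset.range m, (volume (lev ρ q k)).toReal ≤
      8 / 5 * C * ∑ k ∈ Finset.range m, (volume (lev ρ p k)).toReal := by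
    intro m
    rcases Nat.eq_zero_or_pos m with rfl | hm
    · simp
    have hq1 : (1 - exp (-1)) * ∑ k ∈ Finset.range m, (volume (lev ρ q k)).toReal ≤
        (m : ℝ) * ∑ R : Finset (Fin n), wt n m R *
          (volume {x : E d | (R ∩ Nb ρ q x).Nonempty}).toReal := by
      rw [← (int_min ρ q m).2, ← (int_rand ρ q m).2, ← integral_const_mul]
      refine integral_mono ((int_min ρ q m).1.const_mul _) (int_rand ρ q m).1 fun x => ?_
      exact (hBIN n m hm (Nb ρ q x)).2
    have hp1 : (m : ℝ) * ∑ R : Finset (Fin n), wt n m R *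
          (volume {x : E d | (R ∩ Nb ρ p x).Nonempty}).toReal ≤
        ∑ k ∈ Finset.range m, (volume (lev ρ p k)).toReal := by
      rw [← (int_min ρ p m).2, ← (int_rand ρ p m).2]
      refine integral_mono (int_rand ρ p m).1 (int_min ρ p m).1 fun x => ?_
      exact (hBIN n m hm (Nb ρ p x)).1
    have hR : ∀ R : Finset (Fin n), (volume {x : E d | (R ∩ Nb ρ q x).Nonempty}).toReal ≤
        C * (volume {x : E d | (R ∩ Nb ρ p x).Nonempty}).toReal := by
      intro R
      have h1 := hun R (fun i => p i) (fun i => q i) (fun i => ρ i)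
        (fun i j => hpq i j) (fun i => hρ i)
      unfold vU at h1
      rw [← union_eq ρ q R, ← union_eq ρ p R] at h1
      have h2 := ENNReal.toReal_mono (ENNReal.mul_ne_top ENNReal.ofReal_ne_top
        (union_fin ρ p R).ne) h1
      rwa [ENNReal.toReal_mul, ENNReal.toReal_ofReal hC] at h2
    have h3 : (m : ℝ) * ∑ R : Finset (Fin n), wt n m R *
          (volume {x : E d | (R ∩ Nb ρ q x).Nonempty}).toReal ≤
        C * ((m : ℝ) * ∑ R : Finset (Fin n), wt n m R *
          (volume {x : E d | (R ∩ Nb ρ p x).Nonempty}).toReal) := by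
      rw [mul_left_comm C, Finset.mul_sum (a := C)]
      refine mul_le_mul_of_nonneg_left ?_ (Nat.cast_nonneg m)
      refine Finset.sum_le_sum fun R _ => ?_
      have := mul_le_mul_of_nonneg_left (hR R) (wt_nonneg hm R)
      linarith
    have he : (5 : ℝ) / 8 ≤ 1 - exp (-1) := by
      have h4 : (8 : ℝ) / 3 ≤ exp 1 := by linarith [exp_one_gt_d9]
      have h5 : exp (-1) ≤ 3 / 8 := by
        rw [exp_neg, inv_le_comm₀ (exp_pos 1) (by norm_num)]
        linarith
      linarith
    have h6 : 0 ≤ ∑ k ∈ Finset.range m, (volume (lev ρ q k)).toReal :=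
      Finset.sum_nonneg fun k _ => ENNReal.toReal_nonneg
    have h7 : (5 : ℝ) / 8 * ∑ k ∈ Finset.range m, (volume (lev ρ q k)).toReal ≤
        C * ∑ k ∈ Finset.range m, (volume (lev ρ p k)).toReal := by
      calc (5 : ℝ) / 8 * ∑ k ∈ Finset.range m, (volume (lev ρ q k)).toReal ≤
          (1 - exp (-1)) * ∑ k ∈ Finset.range m, (volume (lev ρ q k)).toReal :=
            mul_le_mul_of_nonneg_right he h6
        _ ≤ _ := hq1
        _ ≤ _ := h3
        _ ≤ _ := mul_le_mul_of_nonneg_left hp1 hC
    linarith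
  -- Abel summation
  set t : ℕ → ℝ := fun k => if h : k < n then τ ⟨k, h⟩ else 0 with ht
  have hab := abel_le n t (fun k => (volume (lev ρ q k)).toReal)
    (fun k => 8 / 5 * C * (volume (lev ρ p k)).toReal) (by
      intro k hk
      rw [ht]
      simp only
      rw [dif_pos hk, dif_pos (by omega : k < n)]
      exact hτ (by simp)) (by
      intro k hk
      rw [ht]
      simp only
      rw [dif_pos hk]
      exact hτ0 _) (by
      intro m _
      rw [← Finset.mul_sum]
      exact hS m)
  rw [Finset.sum_range, Finset.sum_range] at hab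
  have e1 : ∀ k : Fin n, t k = τ k := by
    intro k
    rw [ht]
    simp
  simp only [e1] at hab
  have e2 : ∀ (r : Fin n → E d) (k : Fin n), volume (lev ρ r k) = volume {x : E d | k.val + 1 ≤
      (Finset.univ.filter (fun i => dist x (r i) ≤ ρ i)).card} := by
    intro r k
    congr 1
  simp only [e2] at hab
  refine hab.trans (le_of_eq ?_)
  rw [Finset.mul_sum]
  exact Finset.sum_congr rfl fun k _ => by ring

end Pool.Agent.H66.PK
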